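import Mathlib
import Pool.Agent.TH984.GB.Defs

/-!
# The middle coefficients of a block determinant
-/

set_option autoImplicit false

namespace Pool.Agent.TH111.GB

open Pool.Agent.TH984.GB Matrix Polynomial

section

variable {R : Type} [CommRing R] {n : ℕ}

theorem det_upper : (fromBlocks (1 : Matrix (Fin n) (Fin n) R) (-1 : Matrix (Fin n) (Fin n) R)
    (0 : Matrix (Fin n) (Fin n) R) (1 : Matrix (Fin n) (Fin n) R)).det = 1 := by
  rw [det_fromBlocks_zero₂₁, det_one, mul_one]

theorem det_lower : (fromBlocks (1 : Matrix (Fin n) (Fin n) R) (0 : Matrix (Fin n) (Fin n) R)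
    (1 : Matrix (Fin n) (Fin n) R) (1 : Matrix (Fin n) (Fin n) R)).det = 1 := by
  rw [det_fromBlocks_zero₁₂, det_one, mul_one]

theorem det_rot : (fromBlocks (0 : Matrix (Fin n) (Fin n) R) (-1 : Matrix (Fin n) (Fin n) R)
    (1 : Matrix (Fin n) (Fin n) R) (0 : Matrix (Fin n) (Fin n) R)).det = 1 := by
  have e : fromBlocks (0 : Matrix (Fin n) (Fin n) R) (-1 : Matrix (Fin n) (Fin n) R)
    (1 : Matrix (Fin n) (Fin n) R) (0 : Matrix (Fin n) (Fin n) R) =
      fromBlocks 1 (-1) 0 1 * fromBlocks 1 0 1 1 * fromBlocks 1 (-1) 0 1 := by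
    rw [fromBlocks_multiply, fromBlocks_multiply]
    congr 1 <;> simp
  rw [e, det_mul, det_mul, det_upper, det_lower, one_mul, one_mul]

/-- the block operations -/
theorem det_ops (Z X Y : Matrix (Fin n) (Fin n) R) :
    (fromBlocks (Z + X) Z Z (Z + Y)).det = (fromBlocks X (-(X + Y)) Z Y).det := by
  have e : fromBlocks X (-(X + Y)) Z Y =
      fromBlocks 1 (-1) 0 1 * fromBlocks (Z + X) Z Z (Z + Y) * fromBlocks 1 (-1) 0 1 := by
    rw [fromBlocks_multiply, fromBlocks_multiply]
    congr 1
    · simp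
    · simp
      abel
    · simp
    · simp
  rw [e, det_mul, det_mul, det_upper, one_mul, mul_one]

theorem det_scale (r : R) (A B C D : Matrix (Fin n) (Fin n) R) :
    (fromBlocks (r • A) (r • B) C D).det = r ^ n * (fromBlocks A B C D).det := by
  have e : fromBlocks (r • A) (r • B) C D =
      fromBlocks (r • (1 : Matrix (Fin n) (Fin n) R)) 0 0 1 * fromBlocks A B C D := by
    rw [fromBlocks_multiply]
    congr 1 <;> simp
  rw [e, det_mul, det_fromBlocks_zero₂₁, det_one, mul_one, det_smul, det_one, mul_one,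
    Fintype.card_fin]

theorem det_zero_corner (A Y Z : Matrix (Fin n) (Fin n) R) :
    (fromBlocks A (-Y) Z 0).det = Z.det * Y.det := by
  have e : fromBlocks A (-Y) Z 0 * fromBlocks 0 (-1) 1 0 = fromBlocks (-Y) (-A) 0 (-Z) := by
    rw [fromBlocks_multiply]
    congr 1 <;> simp
  have h := congrArg det e
  rw [det_mul, det_rot, mul_one, det_fromBlocks_zero₂₁, det_neg, det_neg] at h
  rw [h, Fintype.card_fin]
  have h1 : ((-1 : R) ^ n) * (-1) ^ n = 1 := by
    rw [← mul_pow]
    simp
  linear_combination (Z.det * Y.det) * h1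

end

/-- the identity for the part of total degree `n` -/
theorem middle (h1 : S_EXP) (n : ℕ) (P Q Z : Matrix (Fin n) (Fin n) ℝ) (s t : ℝ) :
    ∑ j ∈ Finset.range (n + 1), ∑ l ∈ Finset.range (n + 1), s ^ j * t ^ l *
      (if j + l = n then Coef (fromBlocks Z Z Z Z) (fromBlocks P 0 0 0) (fromBlocks 0 0 0 Q) j l
        else 0) = Z.det * (s • P + t • Q).det := by
  set c : ℕ → ℕ → ℝ :=
    Coef (fromBlocks Z Z Z Z) (fromBlocks P 0 0 0) (fromBlocks 0 0 0 Q) with hc
  set G : ℝ[X] := ∑ j ∈ Finset.range (n + n + 1), ∑ l ∈ Finset.range (n + n + 1),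
    C (s ^ j * t ^ l * c j l) * X ^ (j + l) with hG
  set H : ℝ[X] := (fromBlocks ((C : ℝ →+* ℝ[X]).mapMatrix (s • P))
    (-((C : ℝ →+* ℝ[X]).mapMatrix (s • P + t • Q))) ((C : ℝ →+* ℝ[X]).mapMatrix Z)
      ((X : ℝ[X]) • (C : ℝ →+* ℝ[X]).mapMatrix (t • Q))).det with hH
  have hev : ∀ r : ℝ, H.eval r =
      (fromBlocks (s • P) (-(s • P + t • Q)) Z (r • (t • Q))).det := by
    intro r
    rw [hH, ← coe_evalRingHom, RingHom.map_det]
    congr 1
    ext i j
    rcases i with i | i <;> rcases j with j | j <;> simp [Matrix.map_apply]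
  have hGH : G = X ^ n * H := by
    apply Polynomial.funext
    intro r
    rw [eval_mul, eval_pow, eval_X, hev, ← det_scale]
    have h2 := h1 (Fin n ⊕ Fin n) (fromBlocks Z Z Z Z) (fromBlocks P 0 0 0) (fromBlocks 0 0 0 Q)
      (r * s) (r * t)
    have h3 : fromBlocks Z Z Z Z + (r * s) • fromBlocks P 0 0 0 + (r * t) • fromBlocks 0 0 0 Q =
        fromBlocks (Z + (r * s) • P) Z Z (Z + (r * t) • Q) := by
      rw [fromBlocks_smul, fromBlocks_smul, fromBlocks_add, fromBlocks_add]
      congr 1 <;> simp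
    rw [h3, det_ops, Fintype.card_sum, Fintype.card_fin] at h2
    have h4 : r • (s • P) = (r * s) • P := by rw [smul_smul]
    have h5 : r • (t • Q) = (r * t) • Q := by rw [smul_smul]
    rw [smul_neg, smul_add, h4, h5, h2, hG, eval_finsetSum]
    apply Finset.sum_congr rfl
    intro j _
    rw [eval_finsetSum]
    apply Finset.sum_congr rfl
    intro l _
    rw [eval_mul, eval_C, eval_pow, eval_X, mul_pow, mul_pow, pow_add]
    ring
  have hcoef : G.coeff n = (X ^ n * H).coeff n := by rw [hGH]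
  have h6 : (X ^ n * H).coeff n = H.eval 0 := by
    have := coeff_X_pow_mul H n 0
    rw [zero_add] at this
    rw [this, coeff_zero_eq_eval_zero]
  rw [h6, hev, zero_smul, det_zero_corner] at hcoef
  rw [← hcoef, hG, finsetSum_coeff]
  have h7 : ∀ j, (∑ l ∈ Finset.range (n + n + 1), C (s ^ j * t ^ l * c j l) * X ^ (j + l)).coeff n =
      ∑ l ∈ Finset.range (n + n + 1), s ^ j * t ^ l * (if j + l = n then c j l else 0) := by
    intro j
    rw [finsetSum_coeff]
    apply Finset.sum_congr rfl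
    intro l _
    rw [coeff_C_mul_X_pow]
    by_cases h : j + l = n
    · rw [if_pos h, if_pos h.symm]
    · rw [if_neg h, if_neg (fun h' => h h'.symm), mul_zero]
  rw [Finset.sum_congr rfl (fun j _ => h7 j)]
  have hsub : Finset.range (n + 1) ⊆ Finset.range (n + n + 1) := by
    intro x hx
    rw [Finset.mem_range] at hx ⊢
    omega
  rw [← Finset.sum_subset hsub]
  · apply Finset.sum_congr rfl
    intro j _
    rw [← Finset.sum_subset hsub]
    intro l _ hl
    rw [Finset.mem_range] at hl
    rw [if_neg (by omega), mul_zero]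
  · intro j _ hj
    rw [Finset.mem_range] at hj
    apply Finset.sum_eq_zero
    intro l _
    rw [if_neg (by omega), mul_zero]

theorem t_BLOCK (h1 : S_EXP) (h2 : S_UNIQ) : S_BLOCK := by
  intro n P Q Z j hj
  have h3 := h2 n
    (fun j l => if j + l = n then
      Coef (fromBlocks Z Z Z Z) (fromBlocks P 0 0 0) (fromBlocks 0 0 0 Q) j l else 0)
    (fun j l => Z.det * Coef 0 P Q j l) (by
      intro s t _ _
      rw [middle h1 n P Q Z s t]
      have h4 := h1 (Fin n) 0 P Q s t
      rw [zero_add, Fintype.card_fin] at h4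
      rw [h4, Finset.mul_sum]
      apply Finset.sum_congr rfl
      intro j _
      rw [Finset.mul_sum]
      apply Finset.sum_congr rfl
      intro l _
      ring) j (n - j) hj (Nat.sub_le _ _)
  rw [if_pos (by omega)] at h3
  exact h3

end Pool.Agent.TH111.GB
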